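import Pool.Agent.Work.MP_dcf6a6_c1.Interface

/-!
# Block HERK: interpolation by a monic polynomial with prescribed ramification
-/

set_option autoImplicit false

open Polynomial

namespace Pool.C1.helper10

theorem cop_pow {a b : ℂ} (h : a ≠ b) (m n : ℕ) :
    IsCoprime ((X - C a : ℂ[X]) ^ m) ((X - C b) ^ n) :=
  (isCoprime_X_sub_C_of_isUnit_sub (sub_ne_zero.2 h).isUnit).pow

theorem stmt_HERK : Stmt_HERK := by
  classical
  intro L _ ρ v k hρ hρ0 hk
  -- the moduli, indexed by `Option L`
  set M : Option L → ℂ[X] := fun o => o.elim X (fun i => (X - C (ρ i)) ^ (k i + 1)) with hM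
  set x : Option L → ℂ[X] := fun o => o.elim 0 (fun i => C (v i) + (X - C (ρ i)) ^ k i) with hx
  have hcop : Pairwise (Function.onFun IsCoprime fun o => Ideal.span {M o}) := by
    intro a b hab
    rw [Function.onFun, Ideal.isCoprime_span_singleton_iff]
    have hX : (X : ℂ[X]) = (X - C (0 : ℂ)) ^ 1 := by simp
    cases a with
    | none =>
      cases b with
      | none => exact absurd rfl hab
      | some j =>
        show IsCoprime (X : ℂ[X]) _
        rw [hX]; exact cop_pow (hρ0 j).symm _ _
    | some i =>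
      cases b with
      | none =>
        show IsCoprime _ (X : ℂ[X])
        rw [hX]; exact cop_pow (hρ0 i) _ _
      | some j =>
        exact cop_pow (fun h => hab (by rw [hρ h])) _ _
  obtain ⟨p, hp⟩ := Ideal.exists_forall_sub_mem_ideal hcop x
  have hp' : ∀ o, M o ∣ p - x o := fun o => Ideal.mem_span_singleton.1 (hp o)
  set W : ℂ[X] := ∏ i, (X - C (ρ i)) ^ (k i + 1) with hW
  have hWm : W.Monic := monic_prod_of_monic _ _ fun i _ => (monic_X_sub_C _).pow _
  set m : ℕ := p.natDegree + 1 with hm
  have hmon : (X ^ m * W).Monic := (monic_X_pow m).mul hWm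
  have hdeg : m ≤ (X ^ m * W).natDegree := by
    rw [(monic_X_pow m).natDegree_mul hWm, natDegree_X_pow]
    exact Nat.le_add_right _ _
  have hlt : p.degree < (X ^ m * W).degree := by
    refine lt_of_le_of_lt degree_le_natDegree ?_
    rw [degree_eq_natDegree hmon.ne_zero]
    exact_mod_cast lt_of_lt_of_le (Nat.lt_succ_self _) hdeg
  refine ⟨X ^ m * W + p, hmon.add_of_left hlt, ?_, ?_, ?_⟩
  · rw [natDegree_add_eq_left_of_degree_lt hlt]
    exact lt_of_lt_of_le (Nat.succ_pos _) hdeg
  · obtain ⟨s, hs⟩ := hp' none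
    have hs' : p = X * s := by
      have : p - 0 = X * s := hs
      simpa using this
    rw [hs']
    simp [hm]
  · intro i
    obtain ⟨s, hs⟩ := hp' (some i)
    have hs' : p - (C (v i) + (X - C (ρ i)) ^ k i) = (X - C (ρ i)) ^ (k i + 1) * s := hs
    obtain ⟨w, hw⟩ : (X - C (ρ i)) ^ (k i + 1) ∣ W := Finset.dvd_prod_of_mem _ (Finset.mem_univ i)
    refine ⟨1 + (X - C (ρ i)) * (s + X ^ m * w), ?_, ?_⟩
    · rw [hw]
      linear_combination hs'
    · simp

end Pool.C1.helper10
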